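import Pool.Agent.Helper40.KZ.Stmts
import Pool.Agent.Helper53.JZ.CLF

/-!
Two continuous levels with a torus as the fibre, module CLF5: all types of a prime in the same
coordinates (MP_7a8f48_an).
-/

open Finset Filter MeasureTheory Topology

namespace Pool.Agent.Helper95.K5.CLF5

open Pool.Agent.Helper16.AZ (T mm Ind)
open Pool.Agent.Helper40.JZ (U cs tor Lift pj ms chi vz ST_TOR ST_TCH ST_LCH ST_MSF)
open Pool.Agent.Helper40.KZ
open Pool.Agent.Helper53.JZ.CLF (fou_add fou_smul fou_norm ms_congr ms_nonneg ph_sum lift_chi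
  chi_vz_zero)

variable {r s : ℕ}

theorem fa_zero (f : T r → T s) (x : T r) : fa f 0 x = 0 := by
  simp [fa, chi]

theorem fa_neg (f : T r → T s) (a : Fin s → ℤ) (x : T r) : fa f (-a) x = - fa f a x := by
  simp [fa, chi]

/-- the elements with a lift -/
def LL (θ : T r) (f : T r → T s) (q : ℕ) : AddSubgroup ((Fin s → ℤ) × (T r → T r → U)) where
  carrier := {u | Lift θ (fa f u.1) q 1 u.2}
  zero_mem' := by
    refine ⟨fun _ _ => measurable_const, fun _ _ _ _ => ?_, fun _ _ => ?_⟩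
    · exact Eventually.of_forall fun _ => (add_zero _).symm
    · refine Eventually.of_forall fun x => ?_
      simp [fa_zero]
  add_mem' := by
    rintro ⟨a, D⟩ ⟨a', D'⟩ h h'
    refine ⟨fun s hs => (h.1 s hs).add (h'.1 s hs), fun s hs s' hs' => ?_, fun s hs => ?_⟩
    · filter_upwards [h.2.1 s hs s' hs', h'.2.1 s hs s' hs'] with x h1 h2
      simp only [Prod.mk_add_mk, Pi.add_apply] at h1 h2 ⊢
      rw [h1, h2]
      abel
    · filter_upwards [h.2.2 s hs, h'.2.2 s hs] with x h1 h2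
      simp only [Prod.mk_add_mk, Pi.add_apply, one_smul, fa_add] at h1 h2 ⊢
      calc D s (x + θ) + D' s (x + θ) + (fa f a x + fa f a' x)
          = (D s (x + θ) + fa f a x) + (D' s (x + θ) + fa f a' x) := by abel
        _ = _ := by rw [h1, h2]; abel
  neg_mem' := by
    rintro ⟨a, D⟩ h
    refine ⟨fun s hs => (h.1 s hs).neg, fun s hs s' hs' => ?_, fun s hs => ?_⟩
    · filter_upwards [h.2.1 s hs s' hs'] with x h1
      simp only [Prod.neg_mk, Pi.neg_apply] at h1 ⊢
      rw [h1]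
      abel
    · filter_upwards [h.2.2 s hs] with x h1
      simp only [Prod.neg_mk, Pi.neg_apply, one_smul, fa_neg] at h1 ⊢
      rw [← neg_add, h1]
      abel

/-- the characters with a lift -/
def Lam (θ : T r) (f : T r → T s) (q : ℕ) : Submodule ℤ (Fin s → ℤ) :=
  AddSubgroup.toIntSubmodule ((LL θ f q).map (AddMonoidHom.fst _ _))

theorem mem_Lam {θ : T r} {f : T r → T s} {q : ℕ} {a : Fin s → ℤ} :
    a ∈ Lam θ f q ↔ ∃ D, Lift θ (fa f a) q 1 D := by
  constructor
  · rintro ⟨⟨a, D⟩, h1, rfl⟩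
    exact ⟨D, h1⟩
  · rintro ⟨D, hD⟩
    exact ⟨(a, D), hD, rfl⟩

/-- additive lifts and generators -/
theorem exists_D0 (θ : T r) (f : T r → T s) (q : ℕ) :
    ∃ (D₀ : Lam θ f q → T r → T r → U) (gen : Fin s → Lam θ f q),
      (∀ a : Lam θ f q, Lift θ (fa f (a : Fin s → ℤ)) q 1 (D₀ a)) ∧ (∀ a b, D₀ (a + b) = D₀ a + D₀ b) ∧
      AddSubgroup.closure (Set.range gen) = ⊤ := by
  classical
  let bL := Module.Free.chooseBasis ℤ (Lam θ f q)
  have h1 : ∀ i, ∃ D, Lift θ (fa f (bL i : Fin s → ℤ)) q 1 D := fun i => mem_Lam.1 (bL i).2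
  choose D hD using h1
  have hn : Fintype.card (Module.Free.ChooseBasisIndex ℤ (Lam θ f q)) ≤ s := by
    rw [← Module.finrank_eq_card_chooseBasisIndex]
    refine (Submodule.finrank_le _).trans ?_
    simp
  obtain ⟨e⟩ : Nonempty (Module.Free.ChooseBasisIndex ℤ (Lam θ f q) ↪ Fin s) := by
    apply Function.Embedding.nonempty_of_card_le
    simpa using hn
  refine ⟨fun a => ∑ i, bL.repr a i • D i,
    fun j => if h : ∃ i, e i = j then bL h.choose else 0, ?_, ?_, ?_⟩
  · intro a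
    have h2 : (∑ i, bL.repr a i • ((bL i : Fin s → ℤ), D i)) ∈ LL θ f q :=
      sum_mem fun i _ => zsmul_mem (show ((bL i : Fin s → ℤ), D i) ∈ LL θ f q from hD i) _
    have h3 : (∑ i, bL.repr a i • ((bL i : Fin s → ℤ), D i)) =
        ((a : Fin s → ℤ), ∑ i, bL.repr a i • D i) := by
      ext1
      · rw [Prod.fst_sum]
        simp only [Prod.smul_mk]
        have h4 := congrArg (fun z : Lam θ f q => (z : Fin s → ℤ)) (bL.sum_repr a)
        simp only [Submodule.coe_sum, Submodule.coe_smul] at h4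
        exact h4
      · rw [Prod.snd_sum]
        simp only [Prod.smul_mk]
    rw [h3] at h2
    exact h2
  · intro a b
    simp only [map_add, Finsupp.add_apply, add_smul, Finset.sum_add_distrib]
  · rw [eq_top_iff]
    intro a _
    rw [← bL.sum_repr a]
    refine sum_mem fun i _ => zsmul_mem (AddSubgroup.subset_closure ?_) _
    refine ⟨e i, ?_⟩
    have h : ∃ i', e i' = e i := ⟨i, rfl⟩
    simp only
    rw [dif_pos h]
    exact congrArg bL (e.injective h.choose_spec)

theorem sum_aux {α β ι : Type} [Finite ι] {f : α × ι → ℝ} {g : β → ℝ} {i : α → β} {C : ℝ}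
    (hf : ∀ u, 0 ≤ f u) (hg : ∀ a, 0 ≤ g a) (hi : Function.Injective i)
    (h : ∀ j : α, ∑' ω : ι, f (j, ω) = g (i j)) (hgs : HasSum g C) :
    Summable f ∧ ∑' u, f u ≤ C := by
  have hgi : Summable fun j => g (i j) := hgs.summable.comp_injective hi
  have hS2 : Summable fun j : α => ∑' ω : ι, f (j, ω) := by
    have : (fun j : α => ∑' ω : ι, f (j, ω)) = fun j => g (i j) := funext h
    rw [this]
    exact hgi
  have hS : Summable f :=
    (summable_prod_of_nonneg hf).2 ⟨fun j => Summable.of_finite, hS2⟩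
  refine ⟨hS, ?_⟩
  rw [hS.tsum_prod' fun j => Summable.of_finite, tsum_congr h, ← hgs.tsum_eq]
  exact tsum_comp_le_tsum_of_inj hgs.summable hg hi

theorem ae_const {P : Prop} (h : ∀ᵐ _ ∂(mm r), P) : P := by
  have : (mm r) ≠ 0 := IsProbabilityMeasure.ne_zero _
  obtain ⟨x, hx⟩ := (h.exists)
  exact hx

/-- characters of the torsion points -/
theorem chi_vz_add {q : ℕ} [NeZero q] (hTCH : ST_TCH) (w w' : Fin r → ZMod q) :
    ∀ σ ∈ tor r q, chi (vz (w + w')) σ = chi (vz w) σ + chi (vz w') σ := by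
  intro σ hσ
  rw [← (hTCH r q).2.1 (vz w + vz w') (w + w') (fun i => by simp [vz]) σ hσ]
  exact chi_add_left _ _ _

theorem chi_vz_inj {q : ℕ} [NeZero q] (hTOR : ST_TOR) (w : Fin r → ZMod q)
    (h : ∀ σ ∈ tor r q, chi (vz w) σ = 0) : w = 0 := by
  classical
  have hq : (q : ℝ) ≠ 0 := Nat.cast_ne_zero.2 (NeZero.ne q)
  funext i
  let σ : T r := Pi.single i (((1 / q : ℝ)) : U)
  have h1 : σ ∈ tor r q := by
    rw [(hTOR r q NeZero.one_le).1]
    funext j
    by_cases hj : j = i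
    · subst hj
      simp only [σ, Pi.smul_apply, Pi.single_eq_same, Pi.zero_apply]
      rw [← AddCircle.coe_nsmul, nsmul_eq_mul, mul_one_div_cancel hq]
      exact AddCircle.coe_period 1
    · simp only [σ, Pi.smul_apply, Pi.single_eq_of_ne hj, Pi.zero_apply, smul_zero]
  have h2 := h σ h1
  unfold chi at h2
  rw [Finset.sum_eq_single i (fun j _ hj => by simp [σ, Pi.single_eq_of_ne hj]) (by simp)] at h2
  simp only [σ, Pi.single_eq_same] at h2
  rw [← AddCircle.coe_zsmul, AddCircle.coe_eq_zero_iff] at h2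
  obtain ⟨n, hn⟩ := h2
  simp only [zsmul_eq_mul, mul_one] at hn
  have h3 : (n * q : ℤ) = vz w i := by
    have : ((n : ℝ) * q) = vz w i := by
      rw [hn]; field_simp
    exact_mod_cast this
  have h4 : ((vz w i : ℤ) : ZMod q) = w i := by simp [vz]
  rw [← h4, ← h3]
  simp

end Pool.Agent.Helper95.K5.CLF5

namespace Pool.Agent.Helper40.KZ

open Pool.Agent.Helper16.AZ (T mm Ind)
open Pool.Agent.Helper40.JZ (U cs tor Lift pj ms chi vz)
open Pool.Agent.Helper95.K5.CLF5
open Pool.Agent.Helper53.JZ.CLF (fou_add fou_smul fou_norm ms_congr ms_nonneg ph_sum lift_chi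
  chi_vz_zero)

theorem st_CLF5 : Pool.Agent.Helper40.JZ.ST_TOR → Pool.Agent.Helper40.JZ.ST_TCH →
    Pool.Agent.Helper40.JZ.ST_LCH → Pool.Agent.Helper40.JZ.ST_MSF → ST_FIB5 → ST_CLF5 := by
  intro hTOR hTCH hLCH hMSF hFIB r s θ f q hθ hf hq
  classical
  have : NeZero q := ⟨hq.ne_zero⟩
  have : Fact q.Prime := ⟨hq⟩
  have hq1 : 1 ≤ q := hq.one_le
  obtain ⟨-, hF⟩ := hFIB r s
  obtain ⟨D₀, gen, hD₀, hadd, hgen⟩ := exists_D0 θ f q
  have hD00 : D₀ 0 = 0 := by
    have := hadd 0 0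
    rw [add_zero] at this
    exact left_eq_add.1 this
  have hDneg : ∀ a, D₀ (-a) = - D₀ a := by
    intro a
    have := hadd (-a) a
    rw [neg_add_cancel, hD00] at this
    exact eq_neg_of_add_eq_zero_left this.symm
  -- a criterion
  have key : ∀ (g : T r → ℂ) (D : T r → T r → U) (a : Lam θ f q) (w : Fin r → ZMod q),
      (∀ σ ∈ tor r q, ∀ᵐ x ∂(mm r), D σ x = chi (vz w) σ + D₀ a σ x) →
      ms q D 1 g = ms q (fun σ x => chi (vz w) σ + D₀ a σ x) 1 g := by
    intro g D a w h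
    refine ms_congr g fun σ hσ => ?_
    filter_upwards [h σ hσ] with x hx
    rw [hx]
  refine ⟨Lam θ f q × (Fin r → ZMod q), inferInstance,
    Fin.append (fun i => (gen i, 0)) (fun i => (0, Pi.single i 1)),
    fun G u => ms q (fun σ x => chi (vz u.2) σ + D₀ u.1 σ x) 1 (fib G (u.1 : Fin s → ℤ)),
    fun B => (∀ w, ((0 : Lam θ f q), w) ∈ B → w = 0) ∧
      ∀ (a : Lam θ f q) w, (a, w) ∈ B → Kc θ (fa f (a : Fin s → ℤ)) →
        ∀ i, (q : ℤ) ∣ (a : Fin s → ℤ) i, ?_, ?_, ?_, ?_, ?_, ?_⟩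
  · -- generators
    rw [eq_top_iff]
    rintro ⟨a, w⟩ -
    have h1 : ((a, w) : Lam θ f q × (Fin r → ZMod q)) = (a, 0) + (0, w) := by simp
    rw [h1]
    apply add_mem
    · have h2 : a ∈ AddSubgroup.closure (Set.range gen) := by rw [hgen]; trivial
      have h3 : ((a, 0) : Lam θ f q × (Fin r → ZMod q)) ∈
          (AddSubgroup.closure (Set.range gen)).map (AddMonoidHom.inl _ _) := ⟨a, h2, rfl⟩
      rw [AddMonoidHom.map_closure] at h3
      refine AddSubgroup.closure_mono ?_ h3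
      rintro _ ⟨_, ⟨i, rfl⟩, rfl⟩
      exact ⟨Fin.castAdd r i, by simp⟩
    · have h2 : w = ∑ i, (w i).val • (Pi.single i 1 : Fin r → ZMod q) := by
        funext j
        rw [Finset.sum_apply]
        simp [Pi.single_apply]
      have h3 : ((0, w) : Lam θ f q × (Fin r → ZMod q)) =
          ∑ i, (w i).val • ((0, Pi.single i 1) : Lam θ f q × (Fin r → ZMod q)) := by
        ext1
        · rw [Prod.fst_sum]; simp
        · rw [Prod.snd_sum]
          simp only [Prod.smul_mk]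
          exact h2
      rw [h3]
      refine sum_mem fun i _ => nsmul_mem (AddSubgroup.subset_closure ?_) _
      exact ⟨Fin.natAdd s i, by simp⟩
  · refine ⟨fun w hw => ?_, fun a w hw _ i => ?_⟩
    · exact (Prod.mk.inj (AddSubgroup.mem_bot.1 hw)).2
    · have := (Prod.mk.inj (AddSubgroup.mem_bot.1 hw)).1
      rw [this]
      exact dvd_zero _
  · rintro B ⟨hB1, hB2⟩
    refine ⟨fun w hw => ?_, fun a w hw hK i => ?_⟩
    · obtain ⟨m, hm, h⟩ := hw
      have h1 : m • w = 0 := by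
        apply hB1
        simpa using h
      funext i
      have h2 := congrFun h1 i
      simp only [Pi.smul_apply, Pi.zero_apply, nsmul_eq_mul] at h2
      have h3 : IsUnit (m : ZMod q) := (ZMod.isUnit_iff_coprime m q).2 hm
      exact (h3.mul_right_eq_zero).1 h2
    · obtain ⟨m, hm, h⟩ := hw
      have h1 : Kc θ (fa f ((m • a : Lam θ f q) : Fin s → ℤ)) := by
        obtain ⟨c, u, hu, h2⟩ := hK
        refine ⟨m • c, fun x => m • u x, hu.const_smul m, ?_⟩
        filter_upwards [h2] with x hx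
        have h3 : fa f ((m • a : Lam θ f q) : Fin s → ℤ) x = m • fa f (a : Fin s → ℤ) x := by
          have := fa_zsmul f (m : ℤ) (a : Fin s → ℤ) x
          rw [natCast_zsmul, natCast_zsmul] at this
          exact this
        rw [h3, ← smul_add, hx, smul_add]
      have h4 := hB2 (m • a) (m • w) (by simpa using h) h1 i
      have h5 : ((m • a : Lam θ f q) : Fin s → ℤ) i = (m : ℤ) * (a : Fin s → ℤ) i := by
        simp
      rw [h5] at h4
      have h6 : IsCoprime (q : ℤ) (m : ℤ) := by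
        rw [Nat.isCoprime_iff_coprime]
        exact hm.symm
      exact h6.dvd_of_dvd_mul_left h4
  · intro G hG
    obtain ⟨hF1, hF2, -, -⟩ := hF G hG
    refine ⟨fun u => ms_nonneg _ _ _ _, ?_⟩
    refine sum_aux (i := fun a : Lam θ f q => (a : Fin s → ℤ))
      (g := fun a => ∫ x, ‖fib G a x‖ ^ 2 ∂(mm r)) (fun u => ms_nonneg _ _ _ _)
      (fun a => integral_nonneg fun _ => by positivity) Subtype.val_injective ?_ hF2
    intro a
    rw [tsum_fintype]
    have := ph_sum hTOR hTCH hMSF (D₀ := D₀ a) (hD₀ a).1 1 (fib G (a : Fin s → ℤ)) (hF1 _)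
    simp only [one_smul] at this
    exact this
  · -- from types to subgroups
    rintro ⟨A, D⟩ ⟨hL, hA, hK⟩
    simp only at hL hA hK
    have hz : ∀ σ ∈ tor r q, ∀ᵐ x ∂(mm r), D 0 σ x = 0 := by
      intro σ hσ
      filter_upwards [hA 0 A.zero_mem 0 A.zero_mem σ hσ] with x hx
      rw [add_zero] at hx
      exact left_eq_add.1 hx
    let B : AddSubgroup (Lam θ f q × (Fin r → ZMod q)) :=
      { carrier := {u | (u.1 : Fin s → ℤ) ∈ A ∧ ∀ σ ∈ tor r q, ∀ᵐ x ∂(mm r),
          D (u.1 : Fin s → ℤ) σ x = chi (vz u.2) σ + D₀ u.1 σ x}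
        zero_mem' := by
          refine ⟨A.zero_mem, fun σ hσ => ?_⟩
          filter_upwards [hz σ hσ] with x hx
          rw [Prod.fst_zero, Prod.snd_zero, hD00, chi_vz_zero]
          simpa using hx
        add_mem' := by
          rintro ⟨a, w⟩ ⟨a', w'⟩ ⟨h1, h2⟩ ⟨h1', h2'⟩
          refine ⟨A.add_mem h1 h1', fun σ hσ => ?_⟩
          filter_upwards [h2 σ hσ, h2' σ hσ, hA _ h1 _ h1' σ hσ] with x e1 e2 e3
          simp only [Prod.mk_add_mk] at e1 e2 e3 ⊢
          rw [Submodule.coe_add, e3, e1, e2, hadd, chi_vz_add hTCH w w' σ hσ]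
          simp only [Pi.add_apply]
          abel
        neg_mem' := by
          rintro ⟨a, w⟩ ⟨h1, h2⟩
          refine ⟨A.neg_mem h1, fun σ hσ => ?_⟩
          filter_upwards [h2 σ hσ, hz σ hσ, hA _ (A.neg_mem h1) _ h1 σ hσ] with x e1 e2 e3
          simp only [Prod.neg_mk] at e1 e2 e3 ⊢
          rw [neg_add_cancel, e2] at e3
          have e4 := chi_vz_add hTCH (-w) w σ hσ
          rw [neg_add_cancel, chi_vz_zero] at e4
          rw [Submodule.coe_neg, hDneg, eq_neg_of_add_eq_zero_left e3.symm,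
            eq_neg_of_add_eq_zero_left e4.symm, e1]
          simp only [Pi.neg_apply]
          abel }
    have hBmem : ∀ u, u ∈ B ↔ (u.1 : Fin s → ℤ) ∈ A ∧ ∀ σ ∈ tor r q, ∀ᵐ x ∂(mm r),
          D (u.1 : Fin s → ℤ) σ x = chi (vz u.2) σ + D₀ u.1 σ x := fun u => Iff.rfl
    have hB0 : ∀ w, ((0 : Lam θ f q), w) ∈ B → w = 0 := by
      intro w hw
      apply chi_vz_inj hTOR
      intro σ hσ
      apply ae_const (r := r)
      filter_upwards [hw.2 σ hσ, hz σ hσ] with x e1 e2
      simp only [hD00] at e1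
      rw [Submodule.coe_zero, e2] at e1
      simpa using e1.symm
    refine ⟨B, ⟨hB0, fun a w hw hKa => hK _ hw.1 hKa⟩, fun G hG => ?_⟩
    unfold NT
    simp only
    have hinj : ∀ u u' : B, (u : Lam θ f q × (Fin r → ZMod q)).1 =
        (u' : Lam θ f q × (Fin r → ZMod q)).1 → u = u' := by
      rintro ⟨⟨a, w⟩, h⟩ ⟨⟨a', w'⟩, h'⟩ he
      simp only at he
      subst he
      have h1 : ((a, w) : Lam θ f q × (Fin r → ZMod q)) - (a, w') ∈ B := B.sub_mem h h'
      have h2 : ((a, w) : Lam θ f q × (Fin r → ZMod q)) - (a, w') = (0, w - w') := by simp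
      rw [h2] at h1
      have h3 := sub_eq_zero.1 (hB0 _ h1)
      subst h3
      rfl
    let e : B ≃ A := Equiv.ofBijective (fun u => ⟨(u : Lam θ f q × (Fin r → ZMod q)).1, u.2.1⟩) (by
      constructor
      · intro u u' huu
        apply hinj
        apply Subtype.val_injective
        exact congrArg (fun z : A => (z : Fin s → ℤ)) huu
      · rintro ⟨a, ha⟩
        have h1 : a ∈ Lam θ f q := mem_Lam.2 ⟨_, hL a ha⟩
        obtain ⟨ω, hω⟩ := hLCH r θ (fa f a) q 1 (D₀ ⟨a, h1⟩) (D a) hθ (hD₀ ⟨a, h1⟩) (hL a ha)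
        exact ⟨⟨(⟨a, h1⟩, ω), ha, hω⟩, rfl⟩)
    rw [← e.tsum_eq]
    refine tsum_congr fun u => ?_
    exact key _ _ _ _ u.2.2
  · -- from subgroups to types
    rintro B ⟨hB1, hB2⟩
    have huniq : ∀ (a : Lam θ f q) w w', (a, w) ∈ B → (a, w') ∈ B → w = w' := by
      intro a w w' h h'
      have h1 : ((a, w) : Lam θ f q × (Fin r → ZMod q)) - (a, w') ∈ B := B.sub_mem h h'
      have h2 : ((a, w) : Lam θ f q × (Fin r → ZMod q)) - (a, w') = (0, w - w') := by simp
      rw [h2] at h1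
      exact sub_eq_zero.1 (hB1 _ h1)
    let A : AddSubgroup (Fin s → ℤ) := B.map
      (((Lam θ f q).subtype.toAddMonoidHom).comp (AddMonoidHom.fst _ _))
    have hA : ∀ a, a ∈ A ↔ ∃ (h : a ∈ Lam θ f q) (w : Fin r → ZMod q), (⟨a, h⟩, w) ∈ B := by
      intro a
      constructor
      · rintro ⟨⟨a, w⟩, h1, rfl⟩
        exact ⟨a.2, w, h1⟩
      · rintro ⟨h, w, h1⟩
        exact ⟨(⟨a, h⟩, w), h1, rfl⟩
    let D : (Fin s → ℤ) → T r → T r → U := fun a =>
      if h : ∃ (h : a ∈ Lam θ f q) (w : Fin r → ZMod q), (⟨a, h⟩, w) ∈ B then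
        fun σ x => chi (vz h.choose_spec.choose) σ + D₀ ⟨a, h.choose⟩ σ x else fun _ _ => 0
    have hD : ∀ (a : Fin s → ℤ) (h : a ∈ Lam θ f q) w, (⟨a, h⟩, w) ∈ B →
        D a = fun σ x => chi (vz w) σ + D₀ ⟨a, h⟩ σ x := by
      intro a h w hw
      have h1 : ∃ (h : a ∈ Lam θ f q) (w : Fin r → ZMod q), (⟨a, h⟩, w) ∈ B := ⟨h, w, hw⟩
      simp only [D]
      rw [dif_pos h1]
      rw [huniq _ _ _ h1.choose_spec.choose_spec hw]
    refine ⟨(A, D), ⟨?_, ?_, ?_⟩, fun G hG => ?_⟩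
    · intro a ha
      obtain ⟨h, w, hw⟩ := (hA a).1 ha
      simp only
      rw [hD a h w hw]
      exact lift_chi (hD₀ ⟨a, h⟩) _
    · intro a ha b hb σ hσ
      obtain ⟨h, w, hw⟩ := (hA a).1 ha
      obtain ⟨h', w', hw'⟩ := (hA b).1 hb
      simp only
      rw [hD a h w hw, hD b h' w' hw', hD (a + b) (add_mem h h') (w + w')
        (by simpa using B.add_mem hw hw')]
      refine Eventually.of_forall fun x => ?_
      have h1 : D₀ ⟨a + b, add_mem h h'⟩ = D₀ ⟨a, h⟩ + D₀ ⟨b, h'⟩ := hadd ⟨a, h⟩ ⟨b, h'⟩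
      simp only
      rw [h1, chi_vz_add hTCH w w' σ hσ]
      simp only [Pi.add_apply]
      abel
    · intro a ha hKa
      obtain ⟨h, w, hw⟩ := (hA a).1 ha
      exact hB2 ⟨a, h⟩ w hw hKa
    · unfold NT
      simp only
      let e : B ≃ A := Equiv.ofBijective (fun u =>
          ⟨((u : Lam θ f q × (Fin r → ZMod q)).1 : Fin s → ℤ), (hA _).2 ⟨u.1.1.2, u.1.2, u.2⟩⟩) (by
        constructor
        · rintro ⟨⟨a, w⟩, h⟩ ⟨⟨a', w'⟩, h'⟩ huu
          have h1 : a = a' := by
            apply Subtype.val_injective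
            exact congrArg (fun z : A => (z : Fin s → ℤ)) huu
          subst h1
          have h2 := huniq _ _ _ h h'
          subst h2
          rfl
        · rintro ⟨a, ha⟩
          obtain ⟨h, w, hw⟩ := (hA a).1 ha
          exact ⟨⟨(⟨a, h⟩, w), hw⟩, rfl⟩)
      rw [← e.tsum_eq]
      refine tsum_congr fun u => ?_
      have h1 := hD ((u : Lam θ f q × (Fin r → ZMod q)).1 : Fin s → ℤ) u.1.1.2 u.1.2 u.2
      exact (key _ _ _ _ fun σ _ => Eventually.of_forall fun x => by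
        change D ((u : Lam θ f q × (Fin r → ZMod q)).1 : Fin s → ℤ) σ x = _
        rw [h1]).symm

end Pool.Agent.Helper40.KZ
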