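import Pool.Agent.Helper96.K5.MPA5
import Pool.Agent.Helper2.JZ.MTR

/-!
Two continuous levels with a torus as the fibre, module MTR5: the mass of a type as an average of
correlations with measure preserving maps (MP_7a8f48_an).
-/

open Finset Filter MeasureTheory Topology
open scoped ComplexConjugate InnerProductSpace

namespace Pool.Agent.Helper95.K5.MTR5

open Pool.Agent.Helper16.AZ (T E Op mm fc Ind)
open Pool.Agent.Helper40.DZ (RI UR SK Good3)
open Pool.Agent.Helper40.JZ (U cs tor Lift pj ms chi vz ST_TOR ST_MSF)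
open Pool.Agent.Helper40.KZ
open Pool.Agent.Helper2.JZ (norm_four four_add mp_tr l2_mul l2_sq pol_pt pol_int four_mp tr_mp
  tr_int term_mp ms_eq)
open Pool.Agent.Helper96.K5 (mf_eq mp_SA)
open UnitAddTorus (mFourier)

variable {r s : ℕ}

theorem mf1 (b : Fin s → ℤ) (k : T s) : (mFourier b k : ℂ) = fourier 1 (chi b k) := by
  rw [mf_eq, fourier_apply, one_smul]

theorem norm_mf (b : Fin s → ℤ) (k : T s) : ‖(mFourier b k : ℂ)‖ = 1 := by
  rw [mf1]; exact norm_four 1 _

theorem memLp_sn (hF : ST_FIB5) {G : T (r + s) → ℂ} (hG : MemLp G 2 (mm (r + s))) :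
    MemLp (fun z : T r × T s => G (sn z.1 z.2)) 2 ((mm r).prod (mm s)) :=
  hG.comp_measurePreserving (hF r s).1

theorem int_sn (hF : ST_FIB5) {G : T (r + s) → ℂ} (hG : MemLp G 2 (mm (r + s))) :
    ∀ᵐ x ∂(mm r), Integrable (fun k : T s => G (sn x k)) (mm s) :=
  ((memLp_sn hF hG).integrable (by norm_num)).prod_right_ae

theorem mf_int (b : Fin s → ℤ) {h : T s → ℂ} {ν : Measure (T s)} (hh : Integrable h ν) :
    Integrable (fun k => (mFourier b k : ℂ) * h k) ν := by
  refine hh.bdd_mul (c := 1) (mFourier b).continuous.aestronglyMeasurable ?_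
  exact Eventually.of_forall fun k => (norm_mf b k).le

theorem fib_add (hF : ST_FIB5) {G G' : T (r + s) → ℂ} (hG : MemLp G 2 (mm (r + s)))
    (hG' : MemLp G' 2 (mm (r + s))) (c : ℂ) (b : Fin s → ℤ) :
    ∀ᵐ x ∂(mm r), fib (fun y => G y + c * G' y) b x = fib G b x + c * fib G' b x := by
  filter_upwards [int_sn hF hG, int_sn hF hG'] with x h1 h2
  have h3 : ∀ k : T s, (mFourier (-b) k : ℂ) * (G (sn x k) + c * G' (sn x k)) =
      mFourier (-b) k * G (sn x k) + c * (mFourier (-b) k * G' (sn x k)) := fun k => by ring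
  show ∫ k, (mFourier (-b) k : ℂ) * (G (sn x k) + c * G' (sn x k)) ∂(mm s) = _
  simp_rw [h3]
  rw [integral_add (mf_int (-b) h1) ((mf_int (-b) h2).const_mul c), integral_const_mul]
  rfl

/-- Parseval's formula for two functions -/
theorem pars (hF : ST_FIB5) {G G' : T (r + s) → ℂ} (hG : MemLp G 2 (mm (r + s)))
    (hG' : MemLp G' 2 (mm (r + s))) :
    HasSum (fun b : Fin s → ℤ => ∫ x, fib G b x * conj (fib G' b x) ∂(mm r))
      (∫ y, G y * conj (G' y) ∂(mm (r + s))) := by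
  have hc : ∀ c : ℂ, HasSum (fun b : Fin s → ℤ =>
      ((∫ x, ‖fib G b x + c * fib G' b x‖ ^ 2 ∂(mm r) : ℝ) : ℂ))
      ((∫ y, ‖G y + c * G' y‖ ^ 2 ∂(mm (r + s)) : ℝ) : ℂ) := by
    intro c
    have h1 := ((hF r s).2 (fun y => G y + c * G' y) (hG.add (hG'.const_mul c))).2.1
    have h3 : (fun b : Fin s → ℤ => ∫ x, ‖fib (fun y => G y + c * G' y) b x‖ ^ 2 ∂(mm r)) =
        fun b : Fin s → ℤ => ∫ x, ‖fib G b x + c * fib G' b x‖ ^ 2 ∂(mm r) := by
      funext b
      refine integral_congr_ae ?_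
      filter_upwards [fib_add hF hG hG' c b] with x hx
      rw [hx]
    rw [h3] at h1
    exact Complex.hasSum_ofReal.mpr h1
  rw [pol_int hG hG']
  have h2 : (fun b : Fin s → ℤ => ∫ x, fib G b x * conj (fib G' b x) ∂(mm r)) =
      fun b : Fin s → ℤ =>
      (1 / 4 : ℂ) * (((∫ x, ‖fib G b x + 1 * fib G' b x‖ ^ 2 ∂(mm r) : ℝ) : ℂ) -
      ((∫ x, ‖fib G b x + (-1) * fib G' b x‖ ^ 2 ∂(mm r) : ℝ) : ℂ) +
      Complex.I * ((∫ x, ‖fib G b x + Complex.I * fib G' b x‖ ^ 2 ∂(mm r) : ℝ) : ℂ) -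
      Complex.I * ((∫ x, ‖fib G b x + (-Complex.I) * fib G' b x‖ ^ 2 ∂(mm r) : ℝ) : ℂ)) := by
    funext b
    exact pol_int (((hF r s).2 G hG).1 b) (((hF r s).2 G' hG').1 b)
  rw [h2]
  exact (((((hc 1).sub (hc (-1))).add ((hc Complex.I).mul_left _)).sub
    ((hc (-Complex.I)).mul_left _))).mul_left _

/-- the maps -/
theorem mp_tau {ν : Measure (T s)} [IsProbabilityMeasure ν] (σ : T r) {κ : T r → T s}
    (hκ : Measurable κ) :
    MeasurePreserving (fun z : T (r + s) × T s => sn (ini z.1 + σ) (las z.1 + (κ (ini z.1) + z.2)))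
      ((mm (r + s)).prod ν) (mm (r + s)) := by
  have h1 : MeasurePreserving (Prod.swap : T (r + s) × T s → T s × T (r + s))
      ((mm (r + s)).prod ν) (ν.prod (mm (r + s))) := Measure.measurePreserving_swap
  have h2 : MeasurePreserving (fun z : T s × T (r + s) =>
      (id z.1, sn (ini z.2 + σ) (las z.2 + (κ (ini z.2) + z.1))))
      (ν.prod (mm (r + s))) (ν.prod (mm (r + s))) := by
    refine MeasurePreserving.skew_product
      (g := fun k y => sn (ini y + σ) (las y + (κ (ini y) + k))) (MeasurePreserving.id ν) ?_ ?_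
    · have e1 : Measurable fun z : T s × T (r + s) => (ini z.2 + σ, las z.2 + (κ (ini z.2) + z.1)) := by
        refine Measurable.prodMk ?_ ?_
        · exact (continuous_ini.measurable.comp measurable_snd).add_const _
        · exact (continuous_las.measurable.comp measurable_snd).add
            ((hκ.comp (continuous_ini.measurable.comp measurable_snd)).add measurable_fst)
      exact continuous_sn.measurable.comp e1
    · refine Eventually.of_forall fun k => ?_
      exact (mp_SA (s := s) σ (hκ.add_const k)).map_eq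
  have h3 : MeasurePreserving (Prod.snd : T s × T (r + s) → T (r + s))
      (ν.prod (mm (r + s))) (mm (r + s)) := measurePreserving_snd
  exact h3.comp (h2.comp h1)

theorem st_MTR5 (hT : ST_TOR) (hF : ST_FIB5) (_hM : ST_MSF) : ST_MTR5 := by
  intro r s θ f q t κ ν G hq hOK hκm hκ hν hν2 hG
  have hG2 : MemLp G 2 (mm (r + s)) := hG.memLp 2
  have hqn : ((q : ℂ) ^ r) ≠ 0 := pow_ne_zero _ (by exact_mod_cast (by omega : q ≠ 0))
  obtain ⟨hfm, hfs, -⟩ := (hF r s).2 G hG2
  obtain ⟨I, hI⟩ : ∃ I : T r → (Fin s → ℤ) → ℂ, ∀ σ b, I σ b =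
      ∫ x, (fourier 1 (chi b (κ σ x)) : ℂ) * fib G b (x + σ) * conj (fib G b x) ∂(mm r) :=
    ⟨_, fun _ _ => rfl⟩
  have hchm : ∀ σ ∈ tor r q, ∀ b : Fin s → ℤ, Measurable fun x => chi b (κ σ x) :=
    fun σ hσ b => (continuous_chi b).measurable.comp (hκm σ hσ)
  -- the bound
  have hIb : ∀ σ ∈ tor r q, ∀ b, ‖I σ b‖ ≤ ∫ x, ‖fib G b x‖ ^ 2 ∂(mm r) := by
    intro σ hσ b
    rw [hI]
    have e1 : ∀ x, ‖(fourier 1 (chi b (κ σ x)) : ℂ) * fib G b (x + σ) * conj (fib G b x)‖ ≤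
        (‖fib G b (x + σ)‖ ^ 2 + ‖fib G b x‖ ^ 2) / 2 := by
      intro x
      rw [norm_mul, norm_mul, norm_four, one_mul, RCLike.norm_conj]
      nlinarith [sq_nonneg (‖fib G b (x + σ)‖ - ‖fib G b x‖)]
    have e2 : Integrable (fun x => ‖fib G b x‖ ^ 2) (mm r) := l2_sq (hfm b)
    have e3 : Integrable (fun x => ‖fib G b (x + σ)‖ ^ 2) (mm r) := l2_sq (tr_mp (hfm b) σ)
    refine (norm_integral_le_of_norm_le ((e3.add e2).div_const 2)
      (Eventually.of_forall e1)).trans (le_of_eq ?_)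
    rw [integral_div]
    have e4 : ∫ x, ((fun x => ‖fib G b (x + σ)‖ ^ 2) + fun x => ‖fib G b x‖ ^ 2) x ∂(mm r) =
        ∫ x, ‖fib G b (x + σ)‖ ^ 2 ∂(mm r) + ∫ x, ‖fib G b x‖ ^ 2 ∂(mm r) :=
      integral_add e3 e2
    rw [e4]
    have e5 : ∫ x, ‖fib G b (x + σ)‖ ^ 2 ∂(mm r) = ∫ x, ‖fib G b x‖ ^ 2 ∂(mm r) :=
      integral_add_right_eq_self (fun x => ‖fib G b x‖ ^ 2) σ
    rw [e5]
    ring
  -- Parseval for one map
  have h1 : ∀ σ ∈ tor r q, ∀ k : T s, HasSum (fun b => (mFourier b k : ℂ) * I σ b)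
      (∫ y, G (sn (ini y + σ) (las y + (κ σ (ini y) + k))) * conj (G y) ∂(mm (r + s))) := by
    intro σ hσ k
    have hm : Measurable fun x => κ σ x + k := (hκm σ hσ).add_const k
    have h2 : MemLp (fun y => G (SA σ (fun x => κ σ x + k) y)) 2 (mm (r + s)) :=
      hG2.comp_measurePreserving (mp_SA σ hm)
    have h3 := pars hF h2 hG2
    have h4 : (fun b : Fin s → ℤ => ∫ x, fib (fun y => G (SA σ (fun x => κ σ x + k) y)) b x *
        conj (fib G b x) ∂(mm r)) = fun b => (mFourier b k : ℂ) * I σ b := by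
      funext b
      rw [hI, ← integral_const_mul]
      refine integral_congr_ae ?_
      filter_upwards [((hF r s).2 G hG2).2.2.2 σ (fun x => κ σ x + k) hm b] with x hx
      rw [hx]
      have e1 : fa (fun x => κ σ x + k) b x = chi b (κ σ x) + chi b k := chi_add _ _ _
      rw [e1, four_add, mf1]
      ring
    rw [h4] at h3
    exact h3
  -- integrate
  have h2 : ∀ σ ∈ tor r q, HasSum (fun b => (∫ k, (mFourier b k : ℂ) ∂ν) * I σ b)
      (∫ z : T (r + s) × T s, G (sn (ini z.1 + σ) (las z.1 + (κ σ (ini z.1) + z.2))) *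
      conj (G z.1) ∂((mm (r + s)).prod ν)) := by
    intro σ hσ
    have e1 : ∀ b, Integrable (fun k => (mFourier b k : ℂ) * I σ b) ν := by
      intro b
      refine Integrable.mul_const ?_ _
      have := mf_int b (ν := ν) (h := fun _ => 1) (integrable_const _)
      simpa using this
    have e2 : Summable fun b => ∫ k, ‖(mFourier b k : ℂ) * I σ b‖ ∂ν := by
      have e3 : ∀ b, ∫ k, ‖(mFourier b k : ℂ) * I σ b‖ ∂ν = ‖I σ b‖ := by
        intro b
        simp_rw [norm_mul, norm_mf, one_mul]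
        simp
      simp_rw [e3]
      exact Summable.of_nonneg_of_le (fun b => norm_nonneg _) (hIb σ hσ) hfs.summable
    have e3 := hasSum_integral_of_summable_integral_norm e1 e2
    have e4 : ∫ z : T (r + s) × T s, G (sn (ini z.1 + σ) (las z.1 + (κ σ (ini z.1) + z.2))) *
        conj (G z.1) ∂((mm (r + s)).prod ν) =
        ∫ k, (∑' b, (mFourier b k : ℂ) * I σ b) ∂ν := by
      rw [integral_prod_symm]
      · refine integral_congr_ae (Eventually.of_forall fun k => ?_)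
        exact (h1 σ hσ k).tsum_eq.symm
      · exact l2_mul (hG2.comp_measurePreserving (mp_tau σ (hκm σ hσ)))
          (hG2.comp_measurePreserving measurePreserving_fst)
    rw [e4]
    have e5 : (fun b => (∫ k, (mFourier b k : ℂ) ∂ν) * I σ b) =
        fun b => ∫ k, (mFourier b k : ℂ) * I σ b ∂ν := by
      funext b; rw [integral_mul_const]
    rw [e5]
    exact e3
  have h3 := hasSum_sum (s := tor r q) h2
  obtain ⟨B, hB⟩ : ∃ B : (Fin s → ℤ) → ℂ, ∀ b, B b = ∑ σ ∈ tor r q,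
      (∫ k, (mFourier b k : ℂ) ∂ν) * I σ b := ⟨_, fun _ => rfl⟩
  have h4 : ∀ b, b ∉ t.1 → B b = 0 := by
    intro b hb
    rw [hB]
    exact Finset.sum_eq_zero fun σ _ => by rw [(hν2 b).2 hb, zero_mul]
  have h5 : ∀ b ∈ t.1, B b = (q : ℂ) ^ r * ((ms q (t.2 b) 1 (fib G b) : ℝ) : ℂ) := by
    intro b hb
    have hL := hOK.1 b hb
    rw [hB, ms_eq hT hq hL 1 (hfm b)]
    have e2 : ∀ x, pj q (t.2 b) 1 (fib G b) x * conj (fib G b x) =
        (∑ σ ∈ tor r q, (fourier 1 (t.2 b σ x) : ℂ) * fib G b (x + σ) *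
          conj (fib G b x)) / (q : ℂ) ^ r := by
      intro x
      simp only [pj]
      rw [div_mul_eq_mul_div, Finset.sum_mul]
    simp_rw [e2]
    rw [integral_div, integral_finsetSum]
    · rw [mul_div_cancel₀ _ hqn]
      refine Finset.sum_congr rfl fun σ hσ => ?_
      rw [(hν2 b).1 hb, one_mul, hI]
      refine integral_congr_ae ?_
      filter_upwards [hκ b hb σ hσ] with x hx
      rw [hx]
    · intro σ hσ
      exact l2_mul (term_mp hL 1 (hfm b) hσ) (hfm b)
  have h6 : ∑' a : t.1, B (a : Fin s → ℤ) = ∑' b, B b := by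
    refine tsum_subtype_eq_of_support_subset (s := (t.1 : Set (Fin s → ℤ))) ?_
    intro b hb
    by_contra hc
    exact hb (h4 b hc)
  have h7 : HasSum B (∑ σ ∈ tor r q,
    ∫ z : T (r + s) × T s, G (sn (ini z.1 + σ) (las z.1 + (κ σ (ini z.1) + z.2))) *
      conj (G z.1) ∂((mm (r + s)).prod ν)) := by
    have : B = fun b => ∑ σ ∈ tor r q, (∫ k, (mFourier b k : ℂ) ∂ν) * I σ b := funext hB
    rw [this]
    exact h3
  rw [eq_div_iff hqn, ← h7.tsum_eq, ← h6]
  have h8 : ∀ a : t.1, B (a : Fin s → ℤ) =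
      (q : ℂ) ^ r * ((ms q (t.2 (a : Fin s → ℤ)) 1 (fib G (a : Fin s → ℤ)) : ℝ) : ℂ) :=
    fun a => h5 a a.2
  simp_rw [h8]
  rw [tsum_mul_left, ← Complex.ofReal_tsum, mul_comm]
  rfl

end Pool.Agent.Helper95.K5.MTR5

namespace Pool.Agent.Helper40.KZ

theorem st_MTR5 : Pool.Agent.Helper40.JZ.ST_TOR → ST_FIB5 → Pool.Agent.Helper40.JZ.ST_MSF →
    ST_MTR5 := Pool.Agent.Helper95.K5.MTR5.st_MTR5

end Pool.Agent.Helper40.KZ
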